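import Pool.Agent.R832.CI.Ex2
import Pool.Agent.R832.CI.Disjoint3

/-!
# `CI(T)` has more than one irreducible component for `T = (1, 3, 4, 4, 3, 2, 1)`

* The pencil `I^*_2` of the initial forms of degree `2` depends continuously on `I`; for
  `I_1 = (x z, y ^ 2, x ^ 4 + z ^ 5)` it is `⟨x z, y ^ 2⟩`, and its member `x z - y ^ 2` is
  nondegenerate. So `U_1`: some member of the pencil is nondegenerate, is a nonempty open set.
* `U_2`: the pairing `m ^ 2 A × m ^ 4 A → m ^ 6 A` has rank `≥ 3`, is open, and contains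
  `I_2 = (x y - z ^ 4, x z, x ^ 3 - y ^ 3)`.
* Both sets are disjoint: as `T_5 = 2 < 3 = T_1`, some linear form `ℓ ≠ 0` has `ℓ m ^ 5 A = 0`. Then
  `ℓ R_1` is in the left kernel of the pairing, which has dimension `≤ 4 - 3 = 1` modulo `m ^ 3 A` on
  `U_2`. So `ℓ M ∈ I^*_2` for all `M` in a plane, and all members of the pencil are degenerate.
-/

set_option autoImplicit false

namespace Pool.Agent.Results.MP_5fe04c_ag.TwoComponents

open Pool.Agent.R832.CI

universe u

/-- For `T = (1, 3, 4, 4, 3, 2, 1)`, over an algebraically closed field, `CI(T)` is nonempty and has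
more than one irreducible component. -/
theorem result (K : Type u) [Field K] [IsAlgClosed K] :
    ∃ Z₁ ∈ irreducibleComponents (CI K T0), ∃ Z₂ ∈ irreducibleComponents (CI K T0), Z₁ ≠ Z₂ := by
  refine ⟨irreducibleComponent (pt1 K), irreducibleComponent_mem_irreducibleComponents _,
    irreducibleComponent (pt2 K), irreducibleComponent_mem_irreducibleComponents _, fun h => ?_⟩
  have hirr : IsIrreducible (irreducibleComponent (pt1 K)) := isIrreducible_irreducibleComponent
  have ho1 : IsOpen (principalOpen T0 B1 (P1 K)) :=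
    TopologicalSpace.isOpen_generateFrom_of_mem ⟨_, _, rfl⟩
  have ho2 : IsOpen (principalOpen T0 B2 (P2 K)) :=
    TopologicalSpace.isOpen_generateFrom_of_mem ⟨_, _, rfl⟩
  obtain ⟨I, -, h1, h2⟩ := hirr.2 _ _ ho1 ho2 ⟨pt1 K, mem_irreducibleComponent, pt1_mem⟩
    ⟨pt2 K, by rw [h]; exact mem_irreducibleComponent, pt2_mem⟩
  exact disjoint_opens I h1 h2

end Pool.Agent.Results.MP_5fe04c_ag.TwoComponents
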